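import Mathlib

set_option autoImplicit false
open scoped Pointwise

namespace Pool.Agent.T2h44.EC

open Finset

/-- the sums of `k` elements of `T` : at most `(k + 1) ^ |T|` values -/
theorem card_nsmul_le_pow {G : Type*} [AddCommGroup G] [DecidableEq G] (T : Finset G) (k : ℕ) :
    (k • T).card ≤ (k + 1) ^ T.card := by
  classical
  have hsub : ∀ k : ℕ, k • T ⊆ (Fintype.piFinset (fun _ : T => Finset.range (k + 1))).image
      (fun n => ∑ t : T, n t • (t : G)) := by
    intro k
    induction k with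
    | zero =>
      intro x hx
      rw [zero_nsmul, Finset.mem_zero] at hx
      rw [Finset.mem_image]
      exact ⟨fun _ => 0, by simp, by simp [hx]⟩
    | succ k ih =>
      intro x hx
      rw [succ_nsmul, Finset.mem_add] at hx
      obtain ⟨z, hz, t0, ht0, rfl⟩ := hx
      have hz2 := ih hz
      rw [Finset.mem_image] at hz2
      obtain ⟨n, hn, rfl⟩ := hz2
      rw [Finset.mem_image]
      refine ⟨n + Pi.single ⟨t0, ht0⟩ 1, ?_, ?_⟩
      · rw [Fintype.mem_piFinset] at hn ⊢
        intro t
        have h1 := hn t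
        rw [Finset.mem_range] at h1 ⊢
        have h2 : (Pi.single (⟨t0, ht0⟩ : T) 1 : T → ℕ) t ≤ 1 := by
          rw [Pi.single_apply]
          split_ifs <;> simp
        rw [Pi.add_apply]
        omega
      · have h3 : ∀ t : T, ((n + Pi.single (⟨t0, ht0⟩ : T) 1 : T → ℕ) t) • (t : G)
            = n t • (t : G) + (if t = ⟨t0, ht0⟩ then (t : G) else 0) := by
          intro t
          rw [Pi.add_apply, Pi.single_apply, add_smul]
          split_ifs <;> simp
        rw [Finset.sum_congr rfl (fun t _ => h3 t), Finset.sum_add_distrib, Finset.sum_ite_eq']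
        simp
  refine (Finset.card_le_card (hsub k)).trans (Finset.card_image_le.trans ?_)
  rw [Fintype.card_piFinset]
  simp

/-- iterated difference sets of a set of small doubling grow polynomially -/
theorem poly_growth {G : Type*} [AddCommGroup G] [DecidableEq G] (X : Finset G)
    (hX : X.Nonempty) (K : ℝ) (hK : ((X + X).card : ℝ) ≤ K * X.card) :
    ∃ F : Finset G, (F.card : ℝ) ≤ K ^ 4 ∧ (((X + (X - X)).card : ℕ) : ℝ) ≤ K ^ 3 * X.card ∧
      ∀ k : ℕ, k • (X - X) ⊆ (k • F - k • F) + (X - X) := by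
  classical
  have hXpos : (0 : ℝ) < (X.card : ℝ) := by exact_mod_cast hX.card_pos
  have hKK : ((X + X).card : ℝ) / X.card ≤ K := by
    rw [div_le_iff₀ hXpos]; exact hK
  have hq0 : (0 : ℝ) ≤ ((X + X).card : ℝ) / X.card := by positivity
  have hPR : ∀ m n : ℕ, (((m • X - n • X).card : ℕ) : ℝ) ≤ K ^ (m + n) * X.card := by
    intro m n
    have h1 := Finset.pluennecke_ruzsa_inequality_nsmul_sub_nsmul_add hX X m n
    have h2 : (((m • X - n • X).card : ℕ) : ℝ) ≤
        (((X + X).card : ℝ) / X.card) ^ (m + n) * X.card := by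
      have h3 : ((((m • X - n • X).card : ℚ≥0) : ℚ) : ℝ) ≤
          ((((((X + X).card : ℚ≥0) / X.card) ^ (m + n) * X.card : ℚ≥0) : ℚ) : ℝ) := by
        exact_mod_cast h1
      push_cast at h3
      exact h3
    exact h2.trans (mul_le_mul_of_nonneg_right (pow_le_pow_left₀ hq0 hKK _) hXpos.le)
  have hsum3 : X + (X - X) = 2 • X - 1 • X := by
    rw [two_nsmul, one_nsmul, add_sub_assoc]
  have hc3 : (((X + (X - X)).card : ℕ) : ℝ) ≤ K ^ 3 * X.card := by
    rw [hsum3]; exact hPR 2 1
  have h31 : (X + (X - X)) + X = 3 • X - 1 • X := by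
    rw [hsum3, two_nsmul, one_nsmul, show (3 : ℕ) = 2 + 1 from rfl, add_nsmul, two_nsmul,
      one_nsmul]
    rw [sub_add_eq_add_sub]
  have hcov : (((X + (X - X)) + X).card : ℝ) ≤ K ^ 4 * X.card := by
    rw [h31]; exact hPR 3 1
  obtain ⟨F, hFsub, hFcard, hF⟩ := Finset.ruzsa_covering_add hX hcov
  refine ⟨F, hFcard, hc3, ?_⟩
  · -- `(X - X) + (X - X) ⊆ (F - F) + (X - X)`
    have hstep : (X - X) + (X - X) ⊆ (F - F) + (X - X) := by
      have e1 : (X - X) + (X - X) = (X + (X - X)) - X := by
        simp only [sub_eq_add_neg]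
        ac_rfl
      rw [e1]
      have e2 : (X + (X - X)) - X ⊆ (F + (X - X)) - X := Finset.sub_subset_sub_right hF
      refine e2.trans ?_
      have e3 : (F + (X - X)) - X = F - (X + (X - X)) := by
        simp only [sub_eq_add_neg, neg_add_rev, neg_neg]
        ac_rfl
      rw [e3]
      have e4 : F - (X + (X - X)) ⊆ F - (F + (X - X)) := Finset.sub_subset_sub_left hF
      refine e4.trans ?_
      have e5 : F - (F + (X - X)) = (F - F) + (X - X) := by
        simp only [sub_eq_add_neg, neg_add_rev, neg_neg]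
        ac_rfl
      rw [e5]
    intro k
    induction k with
    | zero =>
      rw [zero_nsmul, zero_nsmul]
      intro x hx
      rw [Finset.mem_zero] at hx
      rw [hx]
      obtain ⟨a, ha⟩ := hX
      refine Finset.mem_add.2 ⟨0, ?_, 0, Finset.mem_sub.2 ⟨a, ha, a, ha, sub_self a⟩, add_zero 0⟩
      exact Finset.mem_sub.2 ⟨0, Finset.mem_zero.2 rfl, 0, Finset.mem_zero.2 rfl, sub_self 0⟩
    | succ k ih =>
      rw [succ_nsmul, succ_nsmul]
      calc k • (X - X) + (X - X) ⊆ ((k • F - k • F) + (X - X)) + (X - X) :=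
            Finset.add_subset_add_right ih
        _ = (k • F - k • F) + ((X - X) + (X - X)) := by rw [add_assoc]
        _ ⊆ (k • F - k • F) + ((F - F) + (X - X)) := Finset.add_subset_add_left hstep
        _ = (k • F + F) - (k • F + F) + (X - X) := by
          simp only [sub_eq_add_neg, neg_add_rev, neg_neg]
          ac_rfl

/-- growth of `X + k Y` when `Y ⊆ T + (X - X)` and `X` has small doubling -/
theorem growth {G : Type*} [AddCommGroup G] [DecidableEq G] (X Y T : Finset G)
    (hX : X.Nonempty) (K : ℝ) (hK : ((X + X).card : ℝ) ≤ K * X.card)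
    (hY : Y ⊆ T + (X - X)) (k : ℕ) :
    (((X + k • Y).card : ℕ) : ℝ) ≤
      ((k : ℝ) + 1) ^ ((T.card : ℝ) + 2 * K ^ 4) * (K ^ 3 * X.card) := by
  classical
  obtain ⟨F, hF4, h3, hF⟩ := poly_growth X hX K hK
  have hsub : X + k • Y ⊆ (k • T + (k • F - k • F)) + (X + (X - X)) := by
    have e1 : k • Y ⊆ k • (T + (X - X)) := Finset.nsmul_subset_nsmul_left hY
    have e2 : k • (T + (X - X)) = k • T + k • (X - X) := nsmul_add _ _ _
    calc X + k • Y ⊆ X + (k • T + k • (X - X)) := by
          rw [← e2]; exact Finset.add_subset_add_left e1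
      _ ⊆ X + (k • T + ((k • F - k • F) + (X - X))) :=
          Finset.add_subset_add_left (Finset.add_subset_add_left (hF k))
      _ = (k • T + (k • F - k • F)) + (X + (X - X)) := by
          simp only [sub_eq_add_neg]
          ac_rfl
  have hb1 : (((k • T + (k • F - k • F)) + (X + (X - X))).card : ℝ) ≤
      (((k • T).card : ℝ) * ((k • F).card * (k • F).card)) * (X + (X - X)).card := by
    have i1 : ((k • T + (k • F - k • F)) + (X + (X - X))).card ≤
        (k • T + (k • F - k • F)).card * (X + (X - X)).card := Finset.card_add_le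
    have i2 : (k • T + (k • F - k • F)).card ≤ (k • T).card * (k • F - k • F).card :=
      Finset.card_add_le
    have i3 : (k • F - k • F).card ≤ (k • F).card * (k • F).card := Finset.card_sub_le
    exact_mod_cast i1.trans (Nat.mul_le_mul_right _ (i2.trans (Nat.mul_le_mul_left _ i3)))
  have hk1 : (1 : ℝ) ≤ (k : ℝ) + 1 := by
    have : (0 : ℝ) ≤ (k : ℝ) := by positivity
    linarith
  have hkpos : (0 : ℝ) < (k : ℝ) + 1 := by linarith
  have hT : (((k • T).card : ℕ) : ℝ) ≤ ((k : ℝ) + 1) ^ (T.card : ℝ) := by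
    rw [Real.rpow_natCast]
    exact_mod_cast card_nsmul_le_pow T k
  have hFc : (((k • F).card : ℕ) : ℝ) ≤ ((k : ℝ) + 1) ^ (K ^ 4 : ℝ) := by
    have i1 : (((k • F).card : ℕ) : ℝ) ≤ ((k : ℝ) + 1) ^ (F.card : ℝ) := by
      rw [Real.rpow_natCast]
      exact_mod_cast card_nsmul_le_pow F k
    exact i1.trans (Real.rpow_le_rpow_of_exponent_le hk1 hF4)
  have hcard : (((X + k • Y).card : ℕ) : ℝ) ≤
      (((k • T + (k • F - k • F)) + (X + (X - X))).card : ℝ) := by
    exact_mod_cast Finset.card_le_card hsub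
  calc (((X + k • Y).card : ℕ) : ℝ)
      ≤ (((k • T).card : ℝ) * ((k • F).card * (k • F).card)) * (X + (X - X)).card :=
        hcard.trans hb1
    _ ≤ (((k : ℝ) + 1) ^ (T.card : ℝ) * (((k : ℝ) + 1) ^ (K ^ 4 : ℝ) *
          ((k : ℝ) + 1) ^ (K ^ 4 : ℝ))) * (K ^ 3 * X.card) := by
        apply mul_le_mul (mul_le_mul hT (mul_le_mul hFc hFc (by positivity) (by positivity))
          (by positivity) (by positivity)) h3 (by positivity) (by positivity)
    _ = _ := by
        rw [← Real.rpow_add hkpos, ← Real.rpow_add hkpos, two_mul]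

end Pool.Agent.T2h44.EC
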