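import Pool.Agent.R815.EC.Main
import Pool.Agent.T2h44.EC1

set_option autoImplicit false
open Classical
open scoped Pointwise

namespace Pool.Agent.T2h44.EC

open Pool.Agent.R815.EC

/-- the elements of `A` in `[0, y]` -/
noncomputable def W (A : Set ℕ) (y : ℕ) : Finset ℕ :=
  (Finset.range (y + 1)).filter (fun n => n ∈ A)

/-- the elements of `A` in `[0, y]`, as integers -/
noncomputable def Z (A : Set ℕ) (y : ℕ) : Finset ℤ :=
  (W A y).image (fun n : ℕ => (n : ℤ))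

lemma mem_W {A : Set ℕ} {y n : ℕ} : n ∈ W A y ↔ n ≤ y ∧ n ∈ A := by
  rw [W, Finset.mem_filter, Finset.mem_range, Nat.lt_succ_iff]

lemma mem_Z {A : Set ℕ} {y : ℕ} {z : ℤ} : z ∈ Z A y ↔ ∃ n : ℕ, n ≤ y ∧ n ∈ A ∧ (n : ℤ) = z := by
  rw [Z, Finset.mem_image]
  constructor
  · rintro ⟨n, hn, rfl⟩
    exact ⟨n, (mem_W.1 hn).1, (mem_W.1 hn).2, rfl⟩
  · rintro ⟨n, h1, h2, rfl⟩
    exact ⟨n, mem_W.2 ⟨h1, h2⟩, rfl⟩

lemma card_Z (A : Set ℕ) (y : ℕ) : (Z A y).card = (W A y).card :=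
  Finset.card_image_of_injective _ (fun a b h => by simpa using h)

lemma card_W {A : Set ℕ} (h0 : 0 ∈ A) (y : ℕ) : (W A y).card = cnt A y + 1 := by
  have h : W A y = insert 0 (Finset.filter (fun a => a ∈ A) (Finset.Ioc 0 y)) := by
    ext n
    rw [mem_W, Finset.mem_insert, Finset.mem_filter, Finset.mem_Ioc]
    constructor
    · rintro ⟨h1, h2⟩
      rcases Nat.eq_zero_or_pos n with h3 | h3
      · exact Or.inl h3
      · exact Or.inr ⟨⟨h3, h1⟩, h2⟩
    · rintro (rfl | ⟨⟨_, h1⟩, h2⟩)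
      · exact ⟨Nat.zero_le _, h0⟩
      · exact ⟨h1, h2⟩
  rw [h, Finset.card_insert_of_notMem, cnt]
  simp

lemma card_Z_add (A : Set ℕ) (y : ℕ) : (Z A y + Z A y).card = (W A y + W A y).card := by
  have h : Z A y + Z A y = (W A y + W A y).image (fun n : ℕ => (n : ℤ)) := by
    have := Finset.image_add (Nat.castAddMonoidHom ℤ) (s := W A y) (t := W A y)
    exact this.symm
  rw [h]
  exact Finset.card_image_of_injective _ (fun a b h => by simpa using h)

lemma Z_add_subset {A B : Set ℕ} {x y : ℕ} (h : 2 * y ≤ x) : Z A y + Z B y ⊆ Z (A + B) x := by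
  intro z hz
  obtain ⟨a, ha, b, hb, rfl⟩ := Finset.mem_add.1 hz
  obtain ⟨n, hn1, hn2, rfl⟩ := mem_Z.1 ha
  obtain ⟨m, hm1, hm2, rfl⟩ := mem_Z.1 hb
  exact mem_Z.2 ⟨n + m, by omega, Set.add_mem_add hn2 hm2, by push_cast; rfl⟩

lemma Z_iter_subset {A B : Set ℕ} (y k : ℕ) :
    Z ((fun C : Set ℕ => C + B)^[k] A) y ⊆ Z A y + k • Z B y := by
  induction k with
  | zero =>
    rw [zero_nsmul, add_zero]
    exact Finset.Subset.refl _
  | succ k ih =>
    intro z hz
    rw [Function.iterate_succ_apply'] at hz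
    obtain ⟨n, hn1, hn2, rfl⟩ := mem_Z.1 hz
    obtain ⟨a, ha, b, hb, hab⟩ := hn2
    have hab' : a + b = n := hab
    rw [succ_nsmul, ← add_assoc]
    refine Finset.mem_add.2 ⟨(a : ℤ), ih (mem_Z.2 ⟨a, by omega, ha, rfl⟩), (b : ℤ),
      mem_Z.2 ⟨b, by omega, hb, rfl⟩, ?_⟩
    rw [← hab']
    push_cast
    rfl

lemma zero_mem_iter {A B : Set ℕ} (hA : 0 ∈ A) (hB : 0 ∈ B) (k : ℕ) :
    0 ∈ (fun C : Set ℕ => C + B)^[k] A := by
  induction k with
  | zero => exact hA
  | succ k ih =>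
    rw [Function.iterate_succ_apply']
    exact subset_add hB ih

theorem step {A B : Set ℕ} (hA : 0 ∈ A) (hB : 0 ∈ B) (hpos : 0 < schnirelmannDensity A)
    {D K : ℝ} {x : ℕ} (hx : 0 < x)
    (hcnt : (cnt (A + B) x : ℝ) < D * schnirelmannDensity A * x)
    (hdbl : ∀ y, ((W A y + W A y).card : ℝ) ≤ K * (W A y).card) (hK1 : 1 ≤ K)
    (k : ℕ) (γ : ℝ) (hγ1 : γ ≤ 1)
    (hγ : γ ≤ schnirelmannDensity ((fun C : Set ℕ => C + B)^[k] A)) :
    γ ≤ 4 * D * schnirelmannDensity A * (((k : ℝ) + 1) ^ (4 * D + 2 * K ^ 4) * K ^ 3) := by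
  obtain ⟨α, hα⟩ : ∃ α, α = schnirelmannDensity A := ⟨_, rfl⟩
  rw [← hα] at hpos hcnt ⊢
  have hxR : (0 : ℝ) < (x : ℝ) := by exact_mod_cast hx
  have hα1 : α ≤ 1 := by
    rw [hα]; exact schnirelmannDensity_le_one
  have h1 : α * x ≤ cnt A x := by
    rw [hα]; exact sd_le A x
  have h2 : 1 ≤ cnt A x := by
    by_contra hh
    have : cnt A x = 0 := by omega
    rw [this] at h1
    have : 0 < α * x := by positivity
    push_cast at h1
    linarith
  have h3 : cnt A x ≤ cnt (A + B) x := cnt_mono_left (fun m _ hm => subset_add hB hm)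
  have h4 : (1 : ℝ) ≤ (cnt (A + B) x : ℝ) := by exact_mod_cast h2.trans h3
  have hAB0 : (0 : ℕ) ∈ A + B := subset_add hB hA
  have h5 : ((Z (A + B) x).card : ℝ) ≤ 2 * D * α * x := by
    rw [card_Z, card_W hAB0]
    push_cast
    nlinarith
  obtain ⟨y, hy⟩ : ∃ y, y = x / 2 := ⟨_, rfl⟩
  have hyx : 2 * y ≤ x := by omega
  have hxy : x ≤ 2 * y + 1 := by omega
  have hxyR : (x : ℝ) ≤ 2 * (y : ℝ) + 1 := by exact_mod_cast hxy
  have h6 : α * x / 2 ≤ ((Z A y).card : ℝ) := by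
    rw [card_Z, card_W hA]
    have := sd_le A y
    rw [← hα] at this
    push_cast
    nlinarith
  have hDpos : 0 < D := by
    by_contra hh
    push Not at hh
    have : D * α * x ≤ 0 := by
      have h7 : 0 ≤ α * x := by positivity
      nlinarith
    linarith
  have hne : (Z A y).Nonempty := ⟨0, mem_Z.2 ⟨0, Nat.zero_le _, hA, rfl⟩⟩
  have h7 : ((Z B y + Z A y).card : ℝ) ≤ 4 * D * (Z A y).card := by
    have h8 : (Z B y + Z A y).card ≤ (Z (A + B) x).card := by
      rw [add_comm]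
      exact Finset.card_le_card (Z_add_subset hyx)
    have h9 : ((Z B y + Z A y).card : ℝ) ≤ ((Z (A + B) x).card : ℝ) := by exact_mod_cast h8
    have h10 : 4 * D * (α * x / 2) ≤ 4 * D * (Z A y).card :=
      mul_le_mul_of_nonneg_left h6 (by positivity)
    nlinarith
  obtain ⟨F, _, hF1, hF2⟩ := Finset.ruzsa_covering_add hne h7
  have hdblZ : ((Z A y + Z A y).card : ℝ) ≤ K * (Z A y).card := by
    rw [card_Z_add, card_Z]; exact hdbl y
  have h8 := growth (Z A y) (Z B y) F hne K hdblZ hF2 k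
  have h9 : ((Z A y).card : ℝ) ≤ 2 * D * α * x := by
    have h10 : (Z A y).card ≤ (Z (A + B) x).card := by
      apply Finset.card_le_card
      intro z hz
      obtain ⟨n, hn1, hn2, rfl⟩ := mem_Z.1 hz
      exact mem_Z.2 ⟨n, by omega, subset_add hB hn2, rfl⟩
    have h11 : ((Z A y).card : ℝ) ≤ ((Z (A + B) x).card : ℝ) := by exact_mod_cast h10
    linarith
  have h10 : γ * x / 2 ≤ ((Z A y + k • Z B y).card : ℝ) := by
    have i1 : ((Z ((fun C : Set ℕ => C + B)^[k] A) y).card : ℝ) ≤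
        ((Z A y + k • Z B y).card : ℝ) := by
      exact_mod_cast Finset.card_le_card (Z_iter_subset y k)
    have i2 : γ * x / 2 ≤ ((Z ((fun C : Set ℕ => C + B)^[k] A) y).card : ℝ) := by
      rw [card_Z, card_W (zero_mem_iter hA hB k)]
      have i3 := sd_le ((fun C : Set ℕ => C + B)^[k] A) y
      have i4 : γ * y ≤ schnirelmannDensity ((fun C : Set ℕ => C + B)^[k] A) * y :=
        mul_le_mul_of_nonneg_right hγ (by positivity)
      push_cast
      nlinarith
    exact i2.trans i1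
  have hk1 : (1 : ℝ) ≤ (k : ℝ) + 1 := by
    have : (0 : ℝ) ≤ (k : ℝ) := by positivity
    linarith
  have h11 : ((k : ℝ) + 1) ^ ((F.card : ℝ) + 2 * K ^ 4) ≤ ((k : ℝ) + 1) ^ (4 * D + 2 * K ^ 4) :=
    Real.rpow_le_rpow_of_exponent_le hk1 (by linarith)
  have hP : (0 : ℝ) ≤ ((k : ℝ) + 1) ^ (4 * D + 2 * K ^ 4) := by positivity
  have hK0 : (0 : ℝ) ≤ K := by linarith
  have h12 : γ * x / 2 ≤ ((k : ℝ) + 1) ^ (4 * D + 2 * K ^ 4) * (K ^ 3 * (2 * D * α * x)) := by
    refine h10.trans (h8.trans ?_)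
    exact mul_le_mul h11 (mul_le_mul_of_nonneg_left h9 (by positivity)) (by positivity) hP
  have h13 : γ * x ≤ (4 * D * α * (((k : ℝ) + 1) ^ (4 * D + 2 * K ^ 4) * K ^ 3)) * x := by
    nlinarith
  exact le_of_mul_le_mul_right h13 hxR

theorem iter_lower {B : Set ℕ} (hB : 0 ∈ B) {c δ : ℝ} (hc : 1 < c)
    (H : ∀ A : Set ℕ, 0 ∈ A → 0 < schnirelmannDensity A →
      schnirelmannDensity A < δ → c * schnirelmannDensity A ≤ schnirelmannDensity (A + B))
    {A : Set ℕ} (hA : 0 ∈ A) (hpos : 0 < schnirelmannDensity A) (k : ℕ)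
    (hk : c ^ k * schnirelmannDensity A ≤ δ) :
    c ^ k * schnirelmannDensity A ≤ schnirelmannDensity ((fun C : Set ℕ => C + B)^[k] A) := by
  have hc0 : 0 < c := by linarith
  induction k with
  | zero => rw [pow_zero, one_mul]; exact le_refl _
  | succ k ih =>
    have hck : 0 < c ^ k := by positivity
    have h1 : c ^ k * schnirelmannDensity A ≤ c ^ (k + 1) * schnirelmannDensity A := by
      rw [pow_succ]
      have : 0 < c ^ k * schnirelmannDensity A := by positivity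
      nlinarith
    have h2 := ih (h1.trans hk)
    rw [Function.iterate_succ_apply']
    have h3 : 0 < schnirelmannDensity ((fun C : Set ℕ => C + B)^[k] A) :=
      lt_of_lt_of_le (by positivity) h2
    rcases lt_or_ge (schnirelmannDensity ((fun C : Set ℕ => C + B)^[k] A)) δ with h4 | h4
    · refine le_trans ?_ (H _ (zero_mem_iter hA hB k) h3 h4)
      rw [pow_succ, mul_comm (c ^ k) c, mul_assoc]
      exact mul_le_mul_of_nonneg_left h2 hc0.le
    · exact hk.trans (h4.trans (sd_mono (subset_add hB)))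

end Pool.Agent.T2h44.EC
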