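import Pool.Agent.T2h44.EC2

set_option autoImplicit false
open Classical
open scoped Pointwise

namespace Pool.Agent.T2h44.EC

open Pool.Agent.R815.EC

/-- the quantitative form -/
theorem main {B : Set ℕ} (hB : 0 ∈ B)
    (hess : ∀ A : Set ℕ, 0 ∈ A → 0 < schnirelmannDensity A → schnirelmannDensity A < 1 →
        schnirelmannDensity A < schnirelmannDensity (A + B)) :
    ∃ C : ℝ, 0 < C ∧ ∀ (A : Set ℕ) (K : ℝ), 0 ∈ A → 0 < schnirelmannDensity A →
      (∀ y, ((W A y + W A y).card : ℝ) ≤ K * (W A y).card) →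
      Real.log (1 / schnirelmannDensity A) ≤
        C * (schnirelmannDensity (A + B) / schnirelmannDensity A + K ^ 4) *
          Real.log (2 + Real.log (1 / schnirelmannDensity A)) := by
  obtain ⟨c, hc, δ0, hδ0, H0⟩ := essential_gt_one hB hess
  obtain ⟨δ, hδdef⟩ : ∃ δ, δ = min δ0 1 := ⟨_, rfl⟩
  have hδ : 0 < δ := by rw [hδdef]; exact lt_min hδ0 one_pos
  have hδ1 : δ ≤ 1 := by rw [hδdef]; exact min_le_right _ _
  have H : ∀ A : Set ℕ, 0 ∈ A → 0 < schnirelmannDensity A →
      schnirelmannDensity A < δ → c * schnirelmannDensity A ≤ schnirelmannDensity (A + B) := by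
    intro A h0 h1 h2
    exact H0 A h0 h1 (h2.trans_le (by rw [hδdef]; exact min_le_left _ _))
  obtain ⟨l, hl⟩ : ∃ l, l = Real.log c := ⟨_, rfl⟩
  have hlpos : 0 < l := by rw [hl]; exact Real.log_pos hc
  obtain ⟨lam, hlam⟩ : ∃ lam, lam = Real.log (1 / δ) := ⟨_, rfl⟩
  have hlam0 : 0 ≤ lam := by
    rw [hlam]; exact Real.log_nonneg (by rw [le_div_iff₀ hδ]; linarith)
  refine ⟨(8 + l + lam) * (3 + 2 / l), by positivity, ?_⟩
  intro A K hA hpos hdbl
  obtain ⟨α, hα⟩ : ∃ α, α = schnirelmannDensity A := ⟨_, rfl⟩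
  have hα1 : α ≤ 1 := by rw [hα]; exact schnirelmannDensity_le_one
  have hAAB : schnirelmannDensity A ≤ schnirelmannDensity (A + B) := sd_mono (subset_add hB)
  -- `K ≥ 1`
  have hK1 : 1 ≤ K := by
    have h1 := hdbl 0
    have h2 : W A 0 = {0} := by
      ext n
      rw [mem_W, Finset.mem_singleton]
      constructor
      · rintro ⟨h, _⟩; omega
      · rintro rfl; exact ⟨le_refl _, hA⟩
    rw [h2] at h1
    simpa using h1
  obtain ⟨M, hM⟩ : ∃ M, M = schnirelmannDensity (A + B) / schnirelmannDensity A := ⟨_, rfl⟩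
  have hM1 : 1 ≤ M := by
    rw [hM, le_div_iff₀ hpos, one_mul]; exact hAAB
  have hMα : schnirelmannDensity (A + B) = M * α := by
    rw [hM, hα]; field_simp
  rw [← hM, ← hα]
  rw [← hα] at hpos
  obtain ⟨t, ht⟩ : ∃ t, t = Real.log (1 / α) := ⟨_, rfl⟩
  rw [← ht]
  have ht0 : 0 ≤ t := by
    rw [ht]; exact Real.log_nonneg (by rw [le_div_iff₀ hpos]; linarith)
  obtain ⟨S, hS⟩ : ∃ S, S = M + K ^ 4 := ⟨_, rfl⟩
  have hK8 : 1 ≤ K ^ 4 := one_le_pow₀ hK1
  have hS2 : 2 ≤ S := by rw [hS]; linarith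
  rw [← hS]
  obtain ⟨q, hq⟩ : ∃ q, q = Real.log (2 + t) := ⟨_, rfl⟩
  rw [← hq]
  have hq1 : 1 / 2 ≤ q := by
    rw [hq]
    have h1 : Real.log 2 ≤ Real.log (2 + t) := Real.log_le_log (by norm_num) (by linarith)
    have h2 := Real.log_two_gt_d9
    linarith
  have h2l : 0 < 2 / l := by positivity
  have hC0 : 0 < 8 + l + lam := by linarith
  rcases lt_or_ge α δ with hlt | hge
  · -- the number of steps
    obtain ⟨k, hk⟩ : ∃ k : ℕ, k = ⌊Real.log (δ / α) / l⌋₊ := ⟨_, rfl⟩
    have hlogpos : 0 ≤ Real.log (δ / α) :=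
      Real.log_nonneg (by rw [le_div_iff₀ hpos]; linarith)
    have hk1 : (k : ℝ) ≤ Real.log (δ / α) / l := by
      rw [hk]; exact Nat.floor_le (by positivity)
    have hk2 : Real.log (δ / α) / l < (k : ℝ) + 1 := by
      rw [hk]; exact Nat.lt_floor_add_one _
    have hlog1 : Real.log (δ / α) = t - lam := by
      rw [ht, hlam, Real.log_div hδ.ne' hpos.ne', Real.log_div one_ne_zero hpos.ne',
        Real.log_div one_ne_zero hδ.ne', Real.log_one]
      ring
    have hc0 : 0 < c := by linarith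
    have hckα : c ^ k * α ≤ δ := by
      have h1 : Real.log (c ^ k) ≤ Real.log (δ / α) := by
        rw [Real.log_pow, ← hl]
        rw [le_div_iff₀ hlpos] at hk1
        exact hk1
      have h2 : c ^ k ≤ δ / α := (Real.log_le_log_iff (by positivity) (by positivity)).1 h1
      rw [le_div_iff₀ hpos] at h2
      exact h2
    have hit : c ^ k * α ≤ schnirelmannDensity ((fun C : Set ℕ => C + B)^[k] A) := by
      have := iter_lower hB hc H hA (by rw [← hα]; exact hpos) k (by rw [← hα]; exact hckα)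
      rw [← hα] at this
      exact this
    have hlt2 : schnirelmannDensity (A + B) < 2 * M * α := by
      rw [hMα]
      have : 0 < M * α := by positivity
      linarith
    obtain ⟨x, hx, hcnt⟩ := exists_lt_of_sd_lt hlt2
    have hst := step hA hB (by rw [← hα]; exact hpos) (D := 2 * M) (K := K) hx
      (by rw [← hα]; exact hcnt) hdbl hK1 k (c ^ k * α) (hckα.trans hδ1) hit
    rw [← hα] at hst
    have hst2 : c ^ k ≤ 8 * M * (((k : ℝ) + 1) ^ (8 * M + 2 * K ^ 4) * K ^ 3) := by
      have e : 4 * (2 * M) = 8 * M := by ring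
      rw [e] at hst
      have h1 : c ^ k * α ≤ (8 * M * (((k : ℝ) + 1) ^ (8 * M + 2 * K ^ 4) * K ^ 3)) * α := by
        linarith
      exact le_of_mul_le_mul_right h1 hpos
    have hkp : (0 : ℝ) < (k : ℝ) + 1 := by positivity
    have hpw : (0 : ℝ) < ((k : ℝ) + 1) ^ (8 * M + 2 * K ^ 4) := Real.rpow_pos_of_pos hkp _
    have hlogs : (k : ℝ) * l ≤ (8 * M - 1) + ((8 * M + 2 * K ^ 4) * Real.log ((k : ℝ) + 1) +
        3 * (K - 1)) := by
      have h1 : Real.log (c ^ k) ≤
          Real.log (8 * M * (((k : ℝ) + 1) ^ (8 * M + 2 * K ^ 4) * K ^ 3)) :=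
        Real.log_le_log (by positivity) hst2
      rw [Real.log_pow, ← hl, Real.log_mul (by positivity) (by positivity),
        Real.log_mul hpw.ne' (by positivity), Real.log_rpow hkp, Real.log_pow] at h1
      have h2 : Real.log (8 * M) ≤ 8 * M - 1 := Real.log_le_sub_one_of_pos (by positivity)
      have h3 : Real.log K ≤ K - 1 := Real.log_le_sub_one_of_pos (by linarith)
      push_cast at h1
      linarith
    obtain ⟨e, he⟩ : ∃ e, e = 1 + Real.log ((k : ℝ) + 1) := ⟨_, rfl⟩
    have hlogk : 0 ≤ Real.log ((k : ℝ) + 1) := Real.log_nonneg (by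
      have : (0 : ℝ) ≤ (k : ℝ) := by positivity
      linarith)
    have he1 : 1 ≤ e := by rw [he]; linarith
    have hKK8 : K ≤ K ^ 4 := by
      calc K = K ^ 1 := (pow_one K).symm
        _ ≤ K ^ 4 := pow_le_pow_right₀ hK1 (by norm_num)
    have hkl : (k : ℝ) * l ≤ 8 * S * e := by
      have h1 : (8 * M - 1) + ((8 * M + 2 * K ^ 4) * Real.log ((k : ℝ) + 1) + 3 * (K - 1)) ≤
          8 * S * e := by
        rw [hS, he]
        nlinarith
      exact hlogs.trans h1
    have ht2 : t ≤ (8 + l + lam) * S * e := by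
      have h1 : t - lam < ((k : ℝ) + 1) * l := by
        rw [hlog1, div_lt_iff₀ hlpos] at hk2
        exact hk2
      have hSe : 1 ≤ S * e := by nlinarith
      nlinarith
    have hel : e ≤ (3 + 2 / l) * q := by
      have h1 : (k : ℝ) + 1 ≤ (1 + 1 / l) * (2 + t) := by
        have h2 : (k : ℝ) ≤ t / l := by
          refine hk1.trans ?_
          rw [hlog1]
          exact div_le_div_of_nonneg_right (by linarith) hlpos.le
        have h3 : (1 + 1 / l) * (2 + t) = 2 + t + 2 / l + t / l := by ring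
        rw [h3]
        linarith
      have h4 : Real.log ((k : ℝ) + 1) ≤ Real.log (1 + 1 / l) + q := by
        rw [hq, ← Real.log_mul (by positivity) (by positivity)]
        exact Real.log_le_log hkp h1
      have h5 : Real.log (1 + 1 / l) ≤ 1 / l := by
        have := Real.log_le_sub_one_of_pos (show (0 : ℝ) < 1 + 1 / l by positivity)
        linarith
      have h6 : 0 < 1 / l := by positivity
      have h7 : 2 / l = 2 * (1 / l) := by ring
      rw [he, h7]
      nlinarith
    have hq0 : 0 < q := by linarith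
    calc t ≤ (8 + l + lam) * S * e := ht2
      _ ≤ (8 + l + lam) * S * ((3 + 2 / l) * q) :=
          mul_le_mul_of_nonneg_left hel (by positivity)
      _ = (8 + l + lam) * (3 + 2 / l) * S * q := by ring
  · have htl : t ≤ lam := by
      rw [ht, hlam]
      exact Real.log_le_log (by positivity) (one_div_le_one_div_of_le hδ hge)
    have h1 : (8 + l + lam) ≤ (8 + l + lam) * (3 + 2 / l) * S * q := by
      have h2 : 1 ≤ (3 + 2 / l) * S * q := by
        have h3 : 6 ≤ (3 + 2 / l) * S := by nlinarith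
        nlinarith
      calc (8 + l + lam) = (8 + l + lam) * 1 := (mul_one _).symm
        _ ≤ (8 + l + lam) * ((3 + 2 / l) * S * q) := mul_le_mul_of_nonneg_left h2 hC0.le
        _ = _ := by ring
    linarith

/-- the qualitative form -/
theorem qual {B : Set ℕ} (hB : 0 ∈ B)
    (hess : ∀ A : Set ℕ, 0 ∈ A → 0 < schnirelmannDensity A → schnirelmannDensity A < 1 →
        schnirelmannDensity A < schnirelmannDensity (A + B)) (K M : ℝ) :
    ∃ ε : ℝ, 0 < ε ∧ ∀ A : Set ℕ, 0 ∈ A → 0 < schnirelmannDensity A →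
      schnirelmannDensity A < ε →
      (∀ y, ((W A y + W A y).card : ℝ) ≤ K * (W A y).card) →
      M * schnirelmannDensity A ≤ schnirelmannDensity (A + B) := by
  obtain ⟨C, hC, H⟩ := main hB hess
  obtain ⟨c, hc⟩ : ∃ c, c = C * (|M| + K ^ 4) + 1 := ⟨_, rfl⟩
  have hK8 : 0 ≤ K ^ 4 := by positivity
  have hc1 : 1 ≤ c := by
    rw [hc]
    have : 0 ≤ C * (|M| + K ^ 4) := by positivity
    linarith
  refine ⟨Real.exp (-(16 * c ^ 2 + 4)), Real.exp_pos _, ?_⟩
  intro A hA hpos hlt hdbl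
  by_contra hcon
  push Not at hcon
  have h1 := H A K hA hpos hdbl
  obtain ⟨t, ht⟩ : ∃ t, t = Real.log (1 / schnirelmannDensity A) := ⟨_, rfl⟩
  rw [← ht] at h1
  have htbig : 16 * c ^ 2 + 4 < t := by
    rw [ht, one_div, Real.log_inv]
    have h2 : Real.log (schnirelmannDensity A) < -(16 * c ^ 2 + 4) := by
      rw [Real.log_lt_iff_lt_exp hpos]; exact hlt
    linarith
  have hr : schnirelmannDensity (A + B) / schnirelmannDensity A ≤ |M| := by
    rw [div_le_iff₀ hpos]
    exact hcon.le.trans (mul_le_mul_of_nonneg_right (le_abs_self M) hpos.le)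
  have hlog0 : 0 ≤ Real.log (2 + t) := Real.log_nonneg (by nlinarith [sq_nonneg c])
  have h2 : t ≤ c * Real.log (2 + t) := by
    refine h1.trans (mul_le_mul_of_nonneg_right ?_ hlog0)
    rw [hc]
    have : C * (schnirelmannDensity (A + B) / schnirelmannDensity A + K ^ 4) ≤
        C * (|M| + K ^ 4) := mul_le_mul_of_nonneg_left (by linarith) hC.le
    linarith
  have hpos2 : 0 < 2 + t := by nlinarith [sq_nonneg c]
  have hsq : Real.log (2 + t) ≤ 2 * Real.sqrt (2 + t) := by
    have h3 : Real.log (2 + t) = 2 * Real.log (Real.sqrt (2 + t)) := by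
      rw [Real.log_sqrt hpos2.le]; ring
    rw [h3]
    have h4 := Real.log_le_sub_one_of_pos (Real.sqrt_pos.2 hpos2)
    linarith
  have h3 : t ≤ 2 * c * Real.sqrt (2 + t) := by
    have : c * Real.log (2 + t) ≤ c * (2 * Real.sqrt (2 + t)) :=
      mul_le_mul_of_nonneg_left hsq (by linarith)
    linarith
  have hs0 : 0 ≤ Real.sqrt (2 + t) := Real.sqrt_nonneg _
  have hss : Real.sqrt (2 + t) * Real.sqrt (2 + t) = 2 + t := Real.mul_self_sqrt hpos2.le
  have ht0 : 0 < t := by nlinarith [sq_nonneg c]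
  have h4 : t * t ≤ (2 * c * Real.sqrt (2 + t)) * (2 * c * Real.sqrt (2 + t)) :=
    mul_le_mul h3 h3 ht0.le (by positivity)
  have h5 : (2 * c * Real.sqrt (2 + t)) * (2 * c * Real.sqrt (2 + t)) = 4 * c ^ 2 * (2 + t) := by
    calc (2 * c * Real.sqrt (2 + t)) * (2 * c * Real.sqrt (2 + t))
        = 4 * c ^ 2 * (Real.sqrt (2 + t) * Real.sqrt (2 + t)) := by ring
      _ = 4 * c ^ 2 * (2 + t) := by rw [hss]
  rw [h5] at h4
  have hc2 : 1 ≤ c ^ 2 := one_le_pow₀ hc1
  nlinarith

end Pool.Agent.T2h44.EC
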