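import Pool.Agent.T2h44.EC2

set_option autoImplicit false
open Classical
open scoped Pointwise

namespace Pool.Agent.T2h44.EC

open Pool.Agent.R815.EC

/-- `S` is the union of at most `κ` sets, each with at least `|S| / κ` elements and with doubling
at most `K` -/
def Pieces (S : Finset ℕ) (κ K : ℝ) : Prop :=
  ∃ Q : Finset (Finset ℕ), (Q.card : ℝ) ≤ κ ∧ Q.biUnion id = S ∧
    ∀ P ∈ Q, (S.card : ℝ) ≤ κ * P.card ∧ ((P + P).card : ℝ) ≤ K * P.card

theorem step2 {A B : Set ℕ} (hA : 0 ∈ A) (hB : 0 ∈ B) (hpos : 0 < schnirelmannDensity A)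
    {D κ K : ℝ} {x : ℕ} (hx : 0 < x)
    (hcnt : (cnt (A + B) x : ℝ) < D * schnirelmannDensity A * x)
    (hdbl : ∀ y, Pieces (W A y) κ K) (hκ1 : 1 ≤ κ) (hK1 : 1 ≤ K)
    (k : ℕ) (γ : ℝ) (hγ1 : γ ≤ 1)
    (hγ : γ ≤ schnirelmannDensity ((fun C : Set ℕ => C + B)^[k] A)) :
    γ ≤ 4 * (D * κ) * schnirelmannDensity A *
      (((k : ℝ) + 1) ^ (4 * (D * κ) + 2 * K ^ 4) * K ^ 3) := by
  obtain ⟨α, hα⟩ : ∃ α, α = schnirelmannDensity A := ⟨_, rfl⟩
  rw [← hα] at hpos hcnt ⊢
  have hxR : (0 : ℝ) < (x : ℝ) := by exact_mod_cast hx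
  have hα1 : α ≤ 1 := by
    rw [hα]; exact schnirelmannDensity_le_one
  have h1 : α * x ≤ cnt A x := by
    rw [hα]; exact sd_le A x
  have h2 : 1 ≤ cnt A x := by
    by_contra hh
    have : cnt A x = 0 := by omega
    rw [this] at h1
    have : 0 < α * x := by positivity
    push_cast at h1
    linarith
  have h3 : cnt A x ≤ cnt (A + B) x := cnt_mono_left (fun m _ hm => subset_add hB hm)
  have h4 : (1 : ℝ) ≤ (cnt (A + B) x : ℝ) := by exact_mod_cast h2.trans h3
  have hAB0 : (0 : ℕ) ∈ A + B := subset_add hB hA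
  have h5 : ((Z (A + B) x).card : ℝ) ≤ 2 * D * α * x := by
    rw [card_Z, card_W hAB0]
    push_cast
    nlinarith
  obtain ⟨y, hy⟩ : ∃ y, y = x / 2 := ⟨_, rfl⟩
  have hyx : 2 * y ≤ x := by omega
  have hxy : x ≤ 2 * y + 1 := by omega
  have hxyR : (x : ℝ) ≤ 2 * (y : ℝ) + 1 := by exact_mod_cast hxy
  have h6 : α * x / 2 ≤ ((Z A y).card : ℝ) := by
    rw [card_Z, card_W hA]
    have := sd_le A y
    rw [← hα] at this
    push_cast
    nlinarith
  have hDpos : 0 < D := by
    by_contra hh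
    push Not at hh
    have : D * α * x ≤ 0 := by
      have h7 : 0 ≤ α * x := by positivity
      nlinarith
    linarith
  have hne : (Z A y).Nonempty := ⟨0, mem_Z.2 ⟨0, Nat.zero_le _, hA, rfl⟩⟩
  have h7 : ((Z B y + Z A y).card : ℝ) ≤ 4 * D * (Z A y).card := by
    have h8 : (Z B y + Z A y).card ≤ (Z (A + B) x).card := by
      rw [add_comm]
      exact Finset.card_le_card (Z_add_subset hyx)
    have h9 : ((Z B y + Z A y).card : ℝ) ≤ ((Z (A + B) x).card : ℝ) := by exact_mod_cast h8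
    have h10 : 4 * D * (α * x / 2) ≤ 4 * D * (Z A y).card :=
      mul_le_mul_of_nonneg_left h6 (by positivity)
    nlinarith
  have hAycard : ((Z A y).card : ℝ) = ((W A y).card : ℝ) := by rw [card_Z]
  have hk1 : (1 : ℝ) ≤ (k : ℝ) + 1 := by
    have : (0 : ℝ) ≤ (k : ℝ) := by positivity
    linarith
  have hP : (0 : ℝ) ≤ ((k : ℝ) + 1) ^ (4 * (D * κ) + 2 * K ^ 4) := by positivity
  have hK0 : (0 : ℝ) ≤ K := by linarith
  have hZpos : (0 : ℝ) < ((Z A y).card : ℝ) := by exact_mod_cast hne.card_pos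
  obtain ⟨Q, hQ1, hQ2, hQ3⟩ := hdbl y
  -- every piece
  have hpiece : ∀ P ∈ Q, (((P.image (fun n : ℕ => (n : ℤ)) + k • Z B y).card : ℕ) : ℝ) ≤
      ((k : ℝ) + 1) ^ (4 * (D * κ) + 2 * K ^ 4) * (K ^ 3 * (Z A y).card) := by
    intro P hPQ
    obtain ⟨X, hXdef⟩ : ∃ X, X = P.image (fun n : ℕ => (n : ℤ)) := ⟨_, rfl⟩
    rw [← hXdef]
    have hXcard : X.card = P.card := by
      rw [hXdef]; exact Finset.card_image_of_injective _ (fun a b h => by simpa using h)
    have hPW : P ⊆ W A y := by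
      rw [← hQ2]; exact Finset.subset_biUnion_of_mem id hPQ
    have hXZ : X ⊆ Z A y := by
      rw [hXdef]; exact Finset.image_subset_image hPW
    have hbig : ((Z A y).card : ℝ) ≤ κ * X.card := by
      rw [hAycard, hXcard]; exact (hQ3 P hPQ).1
    have hXne : X.Nonempty := by
      rw [Finset.nonempty_iff_ne_empty]
      rintro h0
      rw [h0, Finset.card_empty] at hbig
      push_cast at hbig
      linarith
    have hXX : ((X + X).card : ℝ) ≤ K * X.card := by
      have h : X + X = (P + P).image (fun n : ℕ => (n : ℤ)) := by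
        rw [hXdef]
        have := Finset.image_add (Nat.castAddMonoidHom ℤ) (s := P) (t := P)
        exact this.symm
      have h' : (X + X).card = (P + P).card := by
        rw [h]; exact Finset.card_image_of_injective _ (fun a b h => by simpa using h)
      rw [h', hXcard]; exact (hQ3 P hPQ).2
    have h7' : ((Z B y + X).card : ℝ) ≤ 4 * (D * κ) * X.card := by
      have i1 : ((Z B y + X).card : ℝ) ≤ ((Z B y + Z A y).card : ℝ) := by
        exact_mod_cast Finset.card_le_card (Finset.add_subset_add_left hXZ)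
      have i2 : 4 * D * (Z A y).card ≤ 4 * D * (κ * X.card) :=
        mul_le_mul_of_nonneg_left hbig (by positivity)
      calc ((Z B y + X).card : ℝ) ≤ 4 * D * (Z A y).card := i1.trans h7
        _ ≤ 4 * D * (κ * X.card) := i2
        _ = 4 * (D * κ) * X.card := by ring
    obtain ⟨F, _, hF1, hF2⟩ := Finset.ruzsa_covering_add hXne h7'
    have h8 := growth X (Z B y) F hXne K hXX hF2 k
    have h11 : ((k : ℝ) + 1) ^ ((F.card : ℝ) + 2 * K ^ 4) ≤
        ((k : ℝ) + 1) ^ (4 * (D * κ) + 2 * K ^ 4) :=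
      Real.rpow_le_rpow_of_exponent_le hk1 (by linarith)
    have h12 : (X.card : ℝ) ≤ ((Z A y).card : ℝ) := by
      exact_mod_cast Finset.card_le_card hXZ
    exact h8.trans (mul_le_mul h11 (mul_le_mul_of_nonneg_left h12 (by positivity))
      (by positivity) hP)
  have hcover : Z A y + k • Z B y ⊆
      Q.biUnion (fun P => P.image (fun n : ℕ => (n : ℤ)) + k • Z B y) := by
    intro z hz
    obtain ⟨a, ha, b, hb, rfl⟩ := Finset.mem_add.1 hz
    obtain ⟨n, hn1, hn2, rfl⟩ := mem_Z.1 ha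
    have hnW : n ∈ Q.biUnion id := by
      rw [hQ2]; exact mem_W.2 ⟨hn1, hn2⟩
    obtain ⟨P, hPQ, hnP⟩ := Finset.mem_biUnion.1 hnW
    exact Finset.mem_biUnion.2 ⟨P, hPQ, Finset.add_mem_add (Finset.mem_image_of_mem _ hnP) hb⟩
  have hall : ((Z A y + k • Z B y).card : ℝ) ≤
      κ * (((k : ℝ) + 1) ^ (4 * (D * κ) + 2 * K ^ 4) * (K ^ 3 * (Z A y).card)) := by
    have i1 : ((Z A y + k • Z B y).card : ℝ) ≤
        ∑ P ∈ Q, (((P.image (fun n : ℕ => (n : ℤ)) + k • Z B y).card : ℕ) : ℝ) := by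
      exact_mod_cast (Finset.card_le_card hcover).trans Finset.card_biUnion_le
    have i2 := Finset.sum_le_card_nsmul Q _ _ hpiece
    rw [nsmul_eq_mul] at i2
    exact i1.trans (i2.trans (mul_le_mul_of_nonneg_right hQ1 (by positivity)))
  have h9 : ((Z A y).card : ℝ) ≤ 2 * D * α * x := by
    have h10 : (Z A y).card ≤ (Z (A + B) x).card := by
      apply Finset.card_le_card
      intro z hz
      obtain ⟨n, hn1, hn2, rfl⟩ := mem_Z.1 hz
      exact mem_Z.2 ⟨n, by omega, subset_add hB hn2, rfl⟩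
    have h11 : ((Z A y).card : ℝ) ≤ ((Z (A + B) x).card : ℝ) := by exact_mod_cast h10
    linarith
  have h10 : γ * x / 2 ≤ ((Z A y + k • Z B y).card : ℝ) := by
    have i1 : ((Z ((fun C : Set ℕ => C + B)^[k] A) y).card : ℝ) ≤
        ((Z A y + k • Z B y).card : ℝ) := by
      exact_mod_cast Finset.card_le_card (Z_iter_subset y k)
    have i2 : γ * x / 2 ≤ ((Z ((fun C : Set ℕ => C + B)^[k] A) y).card : ℝ) := by
      rw [card_Z, card_W (zero_mem_iter hA hB k)]
      have i3 := sd_le ((fun C : Set ℕ => C + B)^[k] A) y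
      have i4 : γ * y ≤ schnirelmannDensity ((fun C : Set ℕ => C + B)^[k] A) * y :=
        mul_le_mul_of_nonneg_right hγ (by positivity)
      push_cast
      nlinarith
    exact i2.trans i1
  have h12 : γ * x / 2 ≤ κ * (((k : ℝ) + 1) ^ (4 * (D * κ) + 2 * K ^ 4) *
      (K ^ 3 * (2 * D * α * x))) := by
    refine h10.trans (hall.trans ?_)
    exact mul_le_mul_of_nonneg_left (mul_le_mul_of_nonneg_left
      (mul_le_mul_of_nonneg_left h9 (by positivity)) hP) (by linarith)
  have h13 : γ * x ≤ (4 * (D * κ) * α * (((k : ℝ) + 1) ^ (4 * (D * κ) + 2 * K ^ 4) * K ^ 3)) * x := by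
    have e : (4 * (D * κ) * α * (((k : ℝ) + 1) ^ (4 * (D * κ) + 2 * K ^ 4) * K ^ 3)) * x =
        2 * (κ * (((k : ℝ) + 1) ^ (4 * (D * κ) + 2 * K ^ 4) * (K ^ 3 * (2 * D * α * x)))) := by
      ring
    rw [e]
    linarith
  exact le_of_mul_le_mul_right h13 hxR

/-- the quantitative form -/
theorem main2 {B : Set ℕ} (hB : 0 ∈ B)
    (hess : ∀ A : Set ℕ, 0 ∈ A → 0 < schnirelmannDensity A → schnirelmannDensity A < 1 →
        schnirelmannDensity A < schnirelmannDensity (A + B)) :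
    ∃ C : ℝ, 0 < C ∧ ∀ (A : Set ℕ) (κ K : ℝ), 0 ∈ A → 0 < schnirelmannDensity A →
      (∀ y, Pieces (W A y) κ K) →
      Real.log (1 / schnirelmannDensity A) ≤
        C * (κ * (schnirelmannDensity (A + B) / schnirelmannDensity A) + K ^ 4) *
          Real.log (2 + Real.log (1 / schnirelmannDensity A)) := by
  obtain ⟨c, hc, δ0, hδ0, H0⟩ := essential_gt_one hB hess
  obtain ⟨δ, hδdef⟩ : ∃ δ, δ = min δ0 1 := ⟨_, rfl⟩
  have hδ : 0 < δ := by rw [hδdef]; exact lt_min hδ0 one_pos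
  have hδ1 : δ ≤ 1 := by rw [hδdef]; exact min_le_right _ _
  have H : ∀ A : Set ℕ, 0 ∈ A → 0 < schnirelmannDensity A →
      schnirelmannDensity A < δ → c * schnirelmannDensity A ≤ schnirelmannDensity (A + B) := by
    intro A h0 h1 h2
    exact H0 A h0 h1 (h2.trans_le (by rw [hδdef]; exact min_le_left _ _))
  obtain ⟨l, hl⟩ : ∃ l, l = Real.log c := ⟨_, rfl⟩
  have hlpos : 0 < l := by rw [hl]; exact Real.log_pos hc
  obtain ⟨lam, hlam⟩ : ∃ lam, lam = Real.log (1 / δ) := ⟨_, rfl⟩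
  have hlam0 : 0 ≤ lam := by
    rw [hlam]; exact Real.log_nonneg (by rw [le_div_iff₀ hδ]; linarith)
  refine ⟨(8 + l + lam) * (3 + 2 / l), by positivity, ?_⟩
  intro A κ K hA hpos hdbl
  obtain ⟨α, hα⟩ : ∃ α, α = schnirelmannDensity A := ⟨_, rfl⟩
  have hα1 : α ≤ 1 := by rw [hα]; exact schnirelmannDensity_le_one
  have hAAB : schnirelmannDensity A ≤ schnirelmannDensity (A + B) := sd_mono (subset_add hB)
  -- `K, κ ≥ 1`
  have hW0 : W A 0 = {0} := by
    ext n
    rw [mem_W, Finset.mem_singleton]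
    constructor
    · rintro ⟨h, _⟩; omega
    · rintro rfl; exact ⟨le_refl _, hA⟩
  have hκK : 1 ≤ κ ∧ 1 ≤ K := by
    obtain ⟨Q, hQ1, hQ2, hQ3⟩ := hdbl 0
    rw [hW0] at hQ2 hQ3
    have h0 : (0 : ℕ) ∈ Q.biUnion id := by rw [hQ2]; exact Finset.mem_singleton_self 0
    obtain ⟨P, hPQ, hP0⟩ := Finset.mem_biUnion.1 h0
    have hP1 : P = {0} := by
      apply Finset.Subset.antisymm
      · rw [← hQ2]; exact Finset.subset_biUnion_of_mem id hPQ
      · rw [Finset.singleton_subset_iff]; exact hP0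
    refine ⟨?_, ?_⟩
    · have h1 : (1 : ℝ) ≤ (Q.card : ℝ) := by exact_mod_cast Finset.card_pos.2 ⟨P, hPQ⟩
      linarith
    · have h1 := (hQ3 P hPQ).2
      rw [hP1] at h1
      simpa using h1
  have hκ1 := hκK.1
  have hK1 := hκK.2
  obtain ⟨M0, hM0⟩ : ∃ M0, M0 = schnirelmannDensity (A + B) / schnirelmannDensity A := ⟨_, rfl⟩
  have hM01 : 1 ≤ M0 := by
    rw [hM0, le_div_iff₀ hpos, one_mul]; exact hAAB
  have hMα : schnirelmannDensity (A + B) = M0 * α := by
    rw [hM0, hα]; field_simp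
  obtain ⟨M, hM⟩ : ∃ M, M = κ * M0 := ⟨_, rfl⟩
  have hM1 : 1 ≤ M := by rw [hM]; nlinarith
  rw [← hM0, ← hM, ← hα]
  rw [← hα] at hpos
  obtain ⟨t, ht⟩ : ∃ t, t = Real.log (1 / α) := ⟨_, rfl⟩
  rw [← ht]
  have ht0 : 0 ≤ t := by
    rw [ht]; exact Real.log_nonneg (by rw [le_div_iff₀ hpos]; linarith)
  obtain ⟨S, hS⟩ : ∃ S, S = M + K ^ 4 := ⟨_, rfl⟩
  have hK8 : 1 ≤ K ^ 4 := one_le_pow₀ hK1
  have hS2 : 2 ≤ S := by rw [hS]; linarith
  rw [← hS]
  obtain ⟨q, hq⟩ : ∃ q, q = Real.log (2 + t) := ⟨_, rfl⟩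
  rw [← hq]
  have hq1 : 1 / 2 ≤ q := by
    rw [hq]
    have h1 : Real.log 2 ≤ Real.log (2 + t) := Real.log_le_log (by norm_num) (by linarith)
    have h2 := Real.log_two_gt_d9
    linarith
  have h2l : 0 < 2 / l := by positivity
  have hC0 : 0 < 8 + l + lam := by linarith
  rcases lt_or_ge α δ with hlt | hge
  · -- the number of steps
    obtain ⟨k, hk⟩ : ∃ k : ℕ, k = ⌊Real.log (δ / α) / l⌋₊ := ⟨_, rfl⟩
    have hlogpos : 0 ≤ Real.log (δ / α) :=
      Real.log_nonneg (by rw [le_div_iff₀ hpos]; linarith)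
    have hk1 : (k : ℝ) ≤ Real.log (δ / α) / l := by
      rw [hk]; exact Nat.floor_le (by positivity)
    have hk2 : Real.log (δ / α) / l < (k : ℝ) + 1 := by
      rw [hk]; exact Nat.lt_floor_add_one _
    have hlog1 : Real.log (δ / α) = t - lam := by
      rw [ht, hlam, Real.log_div hδ.ne' hpos.ne', Real.log_div one_ne_zero hpos.ne',
        Real.log_div one_ne_zero hδ.ne', Real.log_one]
      ring
    have hc0 : 0 < c := by linarith
    have hckα : c ^ k * α ≤ δ := by
      have h1 : Real.log (c ^ k) ≤ Real.log (δ / α) := by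
        rw [Real.log_pow, ← hl]
        rw [le_div_iff₀ hlpos] at hk1
        exact hk1
      have h2 : c ^ k ≤ δ / α := (Real.log_le_log_iff (by positivity) (by positivity)).1 h1
      rw [le_div_iff₀ hpos] at h2
      exact h2
    have hit : c ^ k * α ≤ schnirelmannDensity ((fun C : Set ℕ => C + B)^[k] A) := by
      have := iter_lower hB hc H hA (by rw [← hα]; exact hpos) k (by rw [← hα]; exact hckα)
      rw [← hα] at this
      exact this
    have hlt2 : schnirelmannDensity (A + B) < 2 * M0 * α := by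
      rw [hMα]
      have : 0 < M0 * α := by positivity
      linarith
    obtain ⟨x, hx, hcnt⟩ := exists_lt_of_sd_lt hlt2
    have hst := step2 hA hB (by rw [← hα]; exact hpos) (D := 2 * M0) (K := K) hx
      (by rw [← hα]; exact hcnt) hdbl hκ1 hK1 k (c ^ k * α) (hckα.trans hδ1) hit
    rw [← hα] at hst
    have hst2 : c ^ k ≤ 8 * M * (((k : ℝ) + 1) ^ (8 * M + 2 * K ^ 4) * K ^ 3) := by
      have e : 4 * (2 * M0 * κ) = 8 * M := by rw [hM]; ring
      rw [e] at hst
      have h1 : c ^ k * α ≤ (8 * M * (((k : ℝ) + 1) ^ (8 * M + 2 * K ^ 4) * K ^ 3)) * α := by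
        linarith
      exact le_of_mul_le_mul_right h1 hpos
    have hkp : (0 : ℝ) < (k : ℝ) + 1 := by positivity
    have hpw : (0 : ℝ) < ((k : ℝ) + 1) ^ (8 * M + 2 * K ^ 4) := Real.rpow_pos_of_pos hkp _
    have hlogs : (k : ℝ) * l ≤ (8 * M - 1) + ((8 * M + 2 * K ^ 4) * Real.log ((k : ℝ) + 1) +
        3 * (K - 1)) := by
      have h1 : Real.log (c ^ k) ≤
          Real.log (8 * M * (((k : ℝ) + 1) ^ (8 * M + 2 * K ^ 4) * K ^ 3)) :=
        Real.log_le_log (by positivity) hst2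
      rw [Real.log_pow, ← hl, Real.log_mul (by positivity) (by positivity),
        Real.log_mul hpw.ne' (by positivity), Real.log_rpow hkp, Real.log_pow] at h1
      have h2 : Real.log (8 * M) ≤ 8 * M - 1 := Real.log_le_sub_one_of_pos (by positivity)
      have h3 : Real.log K ≤ K - 1 := Real.log_le_sub_one_of_pos (by linarith)
      push_cast at h1
      linarith
    obtain ⟨e, he⟩ : ∃ e, e = 1 + Real.log ((k : ℝ) + 1) := ⟨_, rfl⟩
    have hlogk : 0 ≤ Real.log ((k : ℝ) + 1) := Real.log_nonneg (by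
      have : (0 : ℝ) ≤ (k : ℝ) := by positivity
      linarith)
    have he1 : 1 ≤ e := by rw [he]; linarith
    have hKK8 : K ≤ K ^ 4 := by
      calc K = K ^ 1 := (pow_one K).symm
        _ ≤ K ^ 4 := pow_le_pow_right₀ hK1 (by norm_num)
    have hkl : (k : ℝ) * l ≤ 8 * S * e := by
      have h1 : (8 * M - 1) + ((8 * M + 2 * K ^ 4) * Real.log ((k : ℝ) + 1) + 3 * (K - 1)) ≤
          8 * S * e := by
        rw [hS, he]
        nlinarith
      exact hlogs.trans h1
    have ht2 : t ≤ (8 + l + lam) * S * e := by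
      have h1 : t - lam < ((k : ℝ) + 1) * l := by
        rw [hlog1, div_lt_iff₀ hlpos] at hk2
        exact hk2
      have hSe : 1 ≤ S * e := by nlinarith
      nlinarith
    have hel : e ≤ (3 + 2 / l) * q := by
      have h1 : (k : ℝ) + 1 ≤ (1 + 1 / l) * (2 + t) := by
        have h2 : (k : ℝ) ≤ t / l := by
          refine hk1.trans ?_
          rw [hlog1]
          exact div_le_div_of_nonneg_right (by linarith) hlpos.le
        have h3 : (1 + 1 / l) * (2 + t) = 2 + t + 2 / l + t / l := by ring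
        rw [h3]
        linarith
      have h4 : Real.log ((k : ℝ) + 1) ≤ Real.log (1 + 1 / l) + q := by
        rw [hq, ← Real.log_mul (by positivity) (by positivity)]
        exact Real.log_le_log hkp h1
      have h5 : Real.log (1 + 1 / l) ≤ 1 / l := by
        have := Real.log_le_sub_one_of_pos (show (0 : ℝ) < 1 + 1 / l by positivity)
        linarith
      have h6 : 0 < 1 / l := by positivity
      have h7 : 2 / l = 2 * (1 / l) := by ring
      rw [he, h7]
      nlinarith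
    have hq0 : 0 < q := by linarith
    calc t ≤ (8 + l + lam) * S * e := ht2
      _ ≤ (8 + l + lam) * S * ((3 + 2 / l) * q) :=
          mul_le_mul_of_nonneg_left hel (by positivity)
      _ = (8 + l + lam) * (3 + 2 / l) * S * q := by ring
  · have htl : t ≤ lam := by
      rw [ht, hlam]
      exact Real.log_le_log (by positivity) (one_div_le_one_div_of_le hδ hge)
    have h1 : (8 + l + lam) ≤ (8 + l + lam) * (3 + 2 / l) * S * q := by
      have h2 : 1 ≤ (3 + 2 / l) * S * q := by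
        have h3 : 6 ≤ (3 + 2 / l) * S := by nlinarith
        nlinarith
      calc (8 + l + lam) = (8 + l + lam) * 1 := (mul_one _).symm
        _ ≤ (8 + l + lam) * ((3 + 2 / l) * S * q) := mul_le_mul_of_nonneg_left h2 hC0.le
        _ = _ := by ring
    linarith


end Pool.Agent.T2h44.EC
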